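import Mathlib.Algebra.Homology.HomotopyCategory
import Mathlib.Algebra.Homology.HomotopyCategory.Triangulated
import Mathlib.CategoryTheory.Center.Preadditive

/-! # Clearing denominators in homotopy categories -/

set_option autoImplicit false
set_option linter.unusedSectionVars false
set_option linter.unusedVariables false

namespace Pool.Agent.NegK.NT.H74

open CategoryTheory CategoryTheory.Limits

universe v v' u u' w

section abs

variable {V : Type u} {W : Type u'} [Category.{v} V] [Category.{v'} W] [Preadditive V]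
  [Preadditive W] {I : Type w} {c : ComplexShape I}

theorem nat' (τ : CatCenter V) {X Y : V} (f : X ⟶ Y) : f ≫ τ.app Y = τ.app X ≫ f :=
  NatTrans.naturality τ f

/-- An element of the centre acts on complexes. -/
def tm (τ : CatCenter V) (E : HomologicalComplex V c) : E ⟶ E where
  f i := τ.app (E.X i)
  comm' i j _ := (nat' τ (E.d i j)).symm

@[simp] theorem tm_f (τ : CatCenter V) (E : HomologicalComplex V c) (i : I) :
    (tm τ E).f i = τ.app (E.X i) := rfl

theorem tm_nat (τ : CatCenter V) {E G : HomologicalComplex V c} (f : E ⟶ G) :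
    f ≫ tm τ G = tm τ E ≫ f := by
  ext i
  exact nat' τ (f.f i)

theorem tm_mul (τ σ : CatCenter V) (E : HomologicalComplex V c) :
    tm (τ * σ) E = tm τ E ≫ tm σ E := by
  ext i
  rw [tm_f, HomologicalComplex.comp_f, tm_f, tm_f, CatCenter.mul_app]

theorem tm_one (E : HomologicalComplex V c) : tm (1 : CatCenter V) E = 𝟙 E := by
  ext i
  rfl

/-- The action on the homotopy category. -/
def kt (τ : CatCenter V) : CatCenter (HomotopyCategory V c) where
  app X := (HomotopyCategory.quotient V c).map (tm τ X.as)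
  naturality := by
    rintro ⟨X⟩ ⟨Y⟩ f
    obtain ⟨f, rfl⟩ := (HomotopyCategory.quotient V c).map_surjective f
    change (HomotopyCategory.quotient V c).map f ≫ (HomotopyCategory.quotient V c).map (tm τ Y) =
      (HomotopyCategory.quotient V c).map (tm τ X) ≫ (HomotopyCategory.quotient V c).map f
    rw [← Functor.map_comp, ← Functor.map_comp, tm_nat]

theorem kt_app (τ : CatCenter V) (E : HomologicalComplex V c) :
    (kt τ).app ((HomotopyCategory.quotient V c).obj E) =
      (HomotopyCategory.quotient V c).map (tm τ E) := rfl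

theorem kt_mul (τ σ : CatCenter V) (X : HomotopyCategory V c) :
    (kt (τ * σ)).app X = (kt τ).app X ≫ (kt σ).app X := by
  change (HomotopyCategory.quotient V c).map (tm (τ * σ) X.as) =
    (HomotopyCategory.quotient V c).map (tm τ X.as) ≫
      (HomotopyCategory.quotient V c).map (tm σ X.as)
  rw [← Functor.map_comp, tm_mul]

theorem kt_one (X : HomotopyCategory V c) : (kt (1 : CatCenter V)).app X = 𝟙 X := by
  change (HomotopyCategory.quotient V c).map (tm (1 : CatCenter V) X.as) = _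
  rw [tm_one, CategoryTheory.Functor.map_id]
  rfl

variable (F : V ⥤ W) [F.Additive] (τ : CatCenter V)

/-- Denominators of morphisms `F A ⟶ F B` can be cleared. -/
def Small (A : V) : Prop :=
  ∀ (B : V) (f : F.obj A ⟶ F.obj B), ∃ (n : ℕ) (g : A ⟶ B), F.map g = F.map ((τ ^ n).app A) ≫ f

/-- Bounded complexes of small objects. -/
structure BSm (E : HomologicalComplex V c) : Prop where
  small : ∀ i, Small F τ (E.X i)
  bdd : ∃ s : Finset I, ∀ i, i ∉ s → IsZero (E.X i)

variable {F τ}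

theorem pow_le {n m : ℕ} (h : n ≤ m) {A B : V} {f : F.obj A ⟶ F.obj B} {g : A ⟶ B}
    (hg : F.map g = F.map ((τ ^ n).app A) ≫ f) :
    F.map ((τ ^ (m - n)).app A ≫ g) = F.map ((τ ^ m).app A) ≫ f := by
  rw [F.map_comp, hg, ← Category.assoc, ← F.map_comp, ← CatCenter.mul_app, ← pow_add,
    Nat.sub_add_cancel h]

/-- Chain maps. -/
theorem exists_map [F.Faithful] {E G : HomologicalComplex V c} (hE : BSm F τ E)
    (f : (F.mapHomologicalComplex c).obj E ⟶ (F.mapHomologicalComplex c).obj G) :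
    ∃ (n : ℕ) (g : E ⟶ G), (F.mapHomologicalComplex c).map g =
      (F.mapHomologicalComplex c).map (tm (τ ^ n) E) ≫ f := by
  classical
  obtain ⟨s, hs⟩ := hE.bdd
  obtain ⟨φ, hφ⟩ : ∃ φ : ∀ i, F.obj (E.X i) ⟶ F.obj (G.X i), φ = f.f := ⟨_, rfl⟩
  have hc : ∀ i j, φ i ≫ F.map (G.d i j) = F.map (E.d i j) ≫ φ j := by
    intro i j
    rw [hφ]
    exact f.comm i j
  choose n g hg using fun i => hE.small i (G.X i) (φ i)
  obtain ⟨N, hN⟩ : ∃ N, N = s.sup n := ⟨_, rfl⟩
  have key : ∀ i, F.map ((τ ^ (N - n i)).app (E.X i) ≫ g i) =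
      F.map ((τ ^ N).app (E.X i)) ≫ φ i := by
    intro i
    by_cases hi : i ∈ s
    · exact pow_le (hN ▸ Finset.le_sup hi) (hg i)
    · exact ((F.map_isZero (hs i hi)).eq_of_src _ _)
  refine ⟨N, { f := fun i => (τ ^ (N - n i)).app (E.X i) ≫ g i, comm' := ?_ }, ?_⟩
  · intro i j _
    apply F.map_injective
    have h2 : F.map (E.d i j) ≫ F.map ((τ ^ N).app (E.X j)) =
        F.map ((τ ^ N).app (E.X i)) ≫ F.map (E.d i j) := by
      rw [← F.map_comp, nat', F.map_comp]
    calc F.map (((τ ^ (N - n i)).app (E.X i) ≫ g i) ≫ G.d i j)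
        = F.map ((τ ^ (N - n i)).app (E.X i) ≫ g i) ≫ F.map (G.d i j) := F.map_comp _ _
      _ = F.map ((τ ^ N).app (E.X i)) ≫ φ i ≫ F.map (G.d i j) := by
        rw [key, Category.assoc]
      _ = F.map (E.d i j) ≫ F.map ((τ ^ N).app (E.X j)) ≫ φ j := by
        rw [hc, ← Category.assoc, ← h2, Category.assoc]
      _ = F.map (E.d i j) ≫ F.map ((τ ^ (N - n j)).app (E.X j) ≫ g j) := by rw [key]
      _ = F.map (E.d i j ≫ (τ ^ (N - n j)).app (E.X j) ≫ g j) := (F.map_comp _ _).symm
  · refine HomologicalComplex.hom_ext _ _ fun i => (key i).trans ?_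
    rw [hφ]
    rfl

/-- Homotopies. -/
theorem exists_htpy [F.Faithful] {E G : HomologicalComplex V c} (hE : BSm F τ E) (f : E ⟶ G)
    (h : Homotopy ((F.mapHomologicalComplex c).map f) 0) :
    ∃ n : ℕ, Nonempty (Homotopy (tm (τ ^ n) E ≫ f) 0) := by
  classical
  obtain ⟨s, hs⟩ := hE.bdd
  obtain ⟨H, hH⟩ : ∃ H : ∀ i j, F.obj (E.X i) ⟶ F.obj (G.X j), H = h.hom := ⟨_, rfl⟩
  have H0 : ∀ i j, ¬ c.Rel j i → H i j = 0 := by
    intro i j hij
    rw [hH]
    exact h.zero i j hij
  have H1 : ∀ i, F.map (f.f i) = F.map (E.d i (c.next i)) ≫ H (c.next i) i +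
      H i (c.prev i) ≫ F.map (G.d (c.prev i) i) + 0 := by
    intro i
    rw [hH]
    exact h.comm i
  choose n g hg using fun i j => hE.small i (G.X j) (H i j)
  obtain ⟨N, hN⟩ : ∃ N, N = s.sup (fun i => n i (c.prev i)) := ⟨_, rfl⟩
  obtain ⟨k, hk⟩ : ∃ k : ∀ i j, E.X i ⟶ G.X j,
      k = fun i j => if c.Rel j i then (τ ^ (N - n i j)).app (E.X i) ≫ g i j else 0 := ⟨_, rfl⟩
  have hk0 : ∀ i j, ¬ c.Rel j i → k i j = 0 := by
    intro i j hij
    rw [hk]
    exact if_neg hij
  have key : ∀ i j, F.map (k i j) = F.map ((τ ^ N).app (E.X i)) ≫ H i j := by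
    intro i j
    by_cases hij : c.Rel j i
    · have h0 : k i j = (τ ^ (N - n i j)).app (E.X i) ≫ g i j := by
        rw [hk]
        exact if_pos hij
      rw [h0]
      by_cases hi : i ∈ s
      · obtain rfl : c.prev i = j := c.prev_eq' hij
        exact pow_le (hN ▸ Finset.le_sup (f := fun i => n i (c.prev i)) hi) (hg i _)
      · exact ((F.map_isZero (hs i hi)).eq_of_src _ _)
    · rw [hk0 i j hij, F.map_zero, H0 i j hij, comp_zero]
  refine ⟨N, ⟨{ hom := k, zero := hk0, comm := ?_ }⟩⟩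
  intro i
  apply F.map_injective
  change F.map ((τ ^ N).app (E.X i) ≫ f.f i) =
    F.map (E.d i (c.next i) ≫ k (c.next i) i + k i (c.prev i) ≫ G.d (c.prev i) i + 0)
  have h3 : F.map (E.d i (c.next i)) ≫ F.map ((τ ^ N).app (E.X (c.next i))) =
      F.map ((τ ^ N).app (E.X i)) ≫ F.map (E.d i (c.next i)) := by
    rw [← F.map_comp, nat', F.map_comp]
  calc F.map ((τ ^ N).app (E.X i) ≫ f.f i)
      = F.map ((τ ^ N).app (E.X i)) ≫ (F.map (E.d i (c.next i)) ≫ H (c.next i) i +
        H i (c.prev i) ≫ F.map (G.d (c.prev i) i)) := by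
        rw [F.map_comp, H1, add_zero]
    _ = F.map (E.d i (c.next i)) ≫ F.map ((τ ^ N).app (E.X (c.next i))) ≫ H (c.next i) i +
        (F.map ((τ ^ N).app (E.X i)) ≫ H i (c.prev i)) ≫ F.map (G.d (c.prev i) i) := by
        rw [Preadditive.comp_add, ← Category.assoc, ← h3, Category.assoc, Category.assoc]
    _ = F.map (E.d i (c.next i) ≫ k (c.next i) i + k i (c.prev i) ≫ G.d (c.prev i) i + 0) := by
        rw [← key, ← key, ← F.map_comp, ← F.map_comp, ← F.map_add, add_zero]

/-! ### The homotopy category -/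

/-- Retracts of bounded complexes of small objects. -/
def RSm (F : V ⥤ W) [F.Additive] (τ : CatCenter V) (X : HomotopyCategory V c) : Prop :=
  ∃ (E : HomologicalComplex V c) (s : X ⟶ (HomotopyCategory.quotient V c).obj E)
    (r : (HomotopyCategory.quotient V c).obj E ⟶ X), s ≫ r = 𝟙 X ∧ BSm F τ E

theorem exists_K0 [F.Faithful] {E G : HomologicalComplex V c} (hE : BSm F τ E)
    (f : (F.mapHomotopyCategory c).obj ((HomotopyCategory.quotient V c).obj E) ⟶
      (F.mapHomotopyCategory c).obj ((HomotopyCategory.quotient V c).obj G)) :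
    ∃ (n : ℕ) (g : (HomotopyCategory.quotient V c).obj E ⟶
      (HomotopyCategory.quotient V c).obj G), (F.mapHomotopyCategory c).map g =
      (F.mapHomotopyCategory c).map ((kt (τ ^ n)).app _) ≫ f := by
  obtain ⟨f, rfl⟩ := (HomotopyCategory.quotient W c).map_surjective f
  obtain ⟨n, g, hg⟩ := exists_map (F := F) (τ := τ) (G := G) hE f
  refine ⟨n, (HomotopyCategory.quotient V c).map g, ?_⟩
  rw [kt_app, Functor.mapHomotopyCategory_map, Functor.mapHomotopyCategory_map, hg,
    Functor.map_comp]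
  rfl

theorem exists_K [F.Faithful] {X Y : HomotopyCategory V c} (hX : RSm F τ X)
    (f : (F.mapHomotopyCategory c).obj X ⟶ (F.mapHomotopyCategory c).obj Y) :
    ∃ (n : ℕ) (g : X ⟶ Y), (F.mapHomotopyCategory c).map g =
      (F.mapHomotopyCategory c).map ((kt (τ ^ n)).app X) ≫ f := by
  obtain ⟨E, s, r, hsr, hE⟩ := hX
  obtain ⟨Y, rfl⟩ : ∃ Y' : HomologicalComplex V c, (HomotopyCategory.quotient V c).obj Y' = Y :=
    ⟨Y.as, rfl⟩
  obtain ⟨n, g, hg⟩ := exists_K0 (G := Y) hE ((F.mapHomotopyCategory c).map r ≫ f)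
  refine ⟨n, s ≫ g, ?_⟩
  rw [Functor.map_comp, hg, ← Category.assoc, ← Category.assoc, ← Functor.map_comp,
    ← Functor.map_comp, nat', Category.assoc, hsr, Category.comp_id]

theorem zero_K0 [F.Faithful] {E G : HomologicalComplex V c} (hE : BSm F τ E)
    (g : (HomotopyCategory.quotient V c).obj E ⟶ (HomotopyCategory.quotient V c).obj G)
    (hg : (F.mapHomotopyCategory c).map g = 0) : ∃ n : ℕ, (kt (τ ^ n)).app _ ≫ g = 0 := by
  obtain ⟨g, rfl⟩ := (HomotopyCategory.quotient V c).map_surjective g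
  rw [Functor.mapHomotopyCategory_map] at hg
  have h1 : Nonempty (Homotopy ((F.mapHomologicalComplex c).map g) 0) :=
    ⟨HomotopyCategory.homotopyOfEq _ _ (hg.trans ((HomotopyCategory.quotient W c).map_zero _ _).symm)⟩
  obtain ⟨h1⟩ := h1
  obtain ⟨n, ⟨h2⟩⟩ := exists_htpy hE g h1
  refine ⟨n, ?_⟩
  rw [kt_app, ← Functor.map_comp]
  exact (HomotopyCategory.eq_of_homotopy _ _ h2).trans ((HomotopyCategory.quotient V c).map_zero _ _)

theorem zero_K [F.Faithful] {X Y : HomotopyCategory V c} (hX : RSm F τ X) (g : X ⟶ Y)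
    (hg : (F.mapHomotopyCategory c).map g = 0) : ∃ n : ℕ, (kt (τ ^ n)).app X ≫ g = 0 := by
  obtain ⟨E, s, r, hsr, hE⟩ := hX
  obtain ⟨Y, rfl⟩ : ∃ Y' : HomologicalComplex V c, (HomotopyCategory.quotient V c).obj Y' = Y :=
    ⟨Y.as, rfl⟩
  obtain ⟨n, hn⟩ := zero_K0 (G := Y) hE (r ≫ g) (by
    rw [Functor.map_comp, hg, comp_zero])
  refine ⟨n, ?_⟩
  have h1 : s ≫ (kt (τ ^ n)).app _ ≫ r ≫ g = 0 := by
    rw [hn, comp_zero]
  rw [← Category.assoc, nat', Category.assoc, ← Category.assoc s r, hsr, Category.id_comp] at h1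
  exact h1

/-- If `F X = 0` then a power of `τ` is zero on `X`. -/
theorem pow_zero_K [F.Faithful] {X : HomotopyCategory V c} (hX : RSm F τ X)
    (h0 : IsZero ((F.mapHomotopyCategory c).obj X)) : ∃ n : ℕ, (kt (τ ^ n)).app X = 0 := by
  obtain ⟨n, hn⟩ := zero_K hX (𝟙 X) (h0.eq_of_src _ _)
  exact ⟨n, by rwa [Category.comp_id] at hn⟩

end abs

end Pool.Agent.NegK.NT.H74
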