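import Pool.Agent.Lib.MP_28303a_al.NT.Lab
import Pool.Agent.Lib.MP_28303a_al.NT.H74.Den0

/-! # Clearing denominators for located complexes -/

set_option autoImplicit false
set_option linter.unusedSectionVars false
set_option linter.unusedVariables false

namespace Pool.Agent.NegK.NT.H74

universe u

open CategoryTheory Limits Pretriangulated

section gen

variable {k k' : Type u} [Ring k] [Ring k'] {Γ : Type u} [Group Γ] {B : Type u} [MulAction Γ B]
  {P : Pre Γ B} (φ : k →+* k')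

theorem mf_inj (hφ : Function.Injective φ) (ι : Type u) :
    Function.Injective (Loc.mf (Γ := Γ) φ ι) := by
  intro x y h
  ext i g
  have h1 := congrArg (fun w => (w i).coeff g) h
  simp only [Loc.coeff_mf] at h1
  exact hφ h1

theorem faithful_bc (hφ : Function.Injective φ) : (Loc.bc (P := P) φ).Faithful where
  map_injective {A A'} f g h := Loc.ext_basis fun i => by
    apply mf_inj φ hφ
    rw [← Loc.lin_bc φ f, ← Loc.lin_bc φ g, h]

/-- The element of the centre. -/
noncomputable abbrev tc (z : k) (hz : ∀ x, z * x = x * z) : CatCenter (Loc k P) := Loc.cen z hz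

theorem pow_cen (z : k) (hz : ∀ x, z * x = x * z) (n : ℕ) (x : k) : z ^ n * x = x * z ^ n :=
  (Commute.pow_left (show Commute z x from hz x) n).eq

theorem tc_pow (z : k) (hz : ∀ x, z * x = x * z) (n : ℕ) (A : Loc k P) :
    ((tc z hz) ^ n).app A = (Loc.cen (z ^ n) (pow_cen z hz n)).app A := by
  induction n with
  | zero =>
    rw [pow_zero]
    refine Loc.hom_ext (LinearMap.ext fun x => ?_)
    rw [Loc.lin_cen, pow_zero]
    exact (one_smul _ x).symm
  | succ n ih =>
    rw [pow_succ, CatCenter.mul_app, ih]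
    refine Loc.hom_ext (LinearMap.ext fun x => ?_)
    rw [Loc.lin_cen, Loc.lin_comp, LinearMap.comp_apply]
    erw [Loc.lin_cen, Loc.lin_cen]
    rw [smul_smul, MonoidAlgebra.single_mul_single, mul_one, ← pow_succ']

theorem clr (z : k) (hden : ∀ x' : k', ∃ (n : ℕ) (x : k), φ x = φ z ^ n * x') (ι : Type u)
    (y : ι →₀ MonoidAlgebra k' Γ) : ∃ (n : ℕ) (x : ι →₀ MonoidAlgebra k Γ),
      Loc.mf φ ι x = MonoidAlgebra.single (1 : Γ) (φ z ^ n) • y := by
  have add : ∀ y y' : ι →₀ MonoidAlgebra k' Γ,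
      (∃ (n : ℕ) (x : ι →₀ MonoidAlgebra k Γ),
        Loc.mf φ ι x = MonoidAlgebra.single (1 : Γ) (φ z ^ n) • y) →
      (∃ (n : ℕ) (x : ι →₀ MonoidAlgebra k Γ),
        Loc.mf φ ι x = MonoidAlgebra.single (1 : Γ) (φ z ^ n) • y') →
      ∃ (n : ℕ) (x : ι →₀ MonoidAlgebra k Γ),
        Loc.mf φ ι x = MonoidAlgebra.single (1 : Γ) (φ z ^ n) • (y + y') := by
    rintro y y' ⟨n, x, hx⟩ ⟨m, x', hx'⟩
    refine ⟨n + m, MonoidAlgebra.single (1 : Γ) (z ^ m) • x +
      MonoidAlgebra.single (1 : Γ) (z ^ n) • x', ?_⟩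
    rw [map_add, Loc.mf_smul, Loc.mf_smul, MonoidAlgebra.mapRingHom_single,
      MonoidAlgebra.mapRingHom_single, hx, hx', smul_smul, smul_smul,
      MonoidAlgebra.single_mul_single, MonoidAlgebra.single_mul_single, smul_add, mul_one,
      map_pow, map_pow, ← pow_add, ← pow_add, Nat.add_comm m n]
  induction y using Finsupp.induction_linear with
  | zero => exact ⟨0, 0, by rw [map_zero, smul_zero]⟩
  | add y y' hy hy' => exact add y y' hy hy'
  | single i b =>
    induction b using MonoidAlgebra.induction_linear with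
    | zero =>
      rw [Finsupp.single_zero]
      exact ⟨0, 0, by rw [map_zero, smul_zero]⟩
    | add a b ha hb =>
      rw [Finsupp.single_add]
      exact add _ _ ha hb
    | single g c =>
      obtain ⟨n, x, hx⟩ := hden c
      refine ⟨n, Finsupp.single i (MonoidAlgebra.single g x), ?_⟩
      rw [Loc.mf_single, MonoidAlgebra.mapRingHom_single, Finsupp.smul_single, smul_eq_mul,
        MonoidAlgebra.single_mul_single, one_mul, hx]

theorem small_bc (hφ : Function.Injective φ) (z : k) (hz : ∀ x, z * x = x * z)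
    (hden : ∀ x' : k', ∃ (n : ℕ) (x : k), φ x = φ z ^ n * x') (A : Loc k P) (hA : Finite A.ι) :
    Small (Loc.bc (P := P) φ) (tc z hz) A := by
  classical
  intro A' f
  obtain ⟨y, hy⟩ : ∃ y : A.ι → (A'.ι →₀ MonoidAlgebra k' Γ),
      y = fun i => Loc.lin (A := Loc.bo A) (A' := Loc.bo A') f (Finsupp.single i 1) := ⟨_, rfl⟩
  choose n x hx using fun i => clr (Γ := Γ) φ z hden A'.ι (y i)
  cases nonempty_fintype A.ι
  obtain ⟨N, hN⟩ : ∃ N, N = Finset.univ.sup n := ⟨_, rfl⟩
  have hle : ∀ i, n i ≤ N := fun i => hN ▸ Finset.le_sup (Finset.mem_univ i)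
  obtain ⟨c, hc⟩ : ∃ c : A.ι → (A'.ι →₀ MonoidAlgebra k Γ),
      c = fun i => MonoidAlgebra.single (1 : Γ) (z ^ (N - n i)) • x i := ⟨_, rfl⟩
  have hmf : ∀ i, Loc.mf φ A'.ι (c i) = MonoidAlgebra.single (1 : Γ) (φ z ^ N) • y i := by
    intro i
    rw [hc]
    change Loc.mf φ A'.ι (MonoidAlgebra.single (1 : Γ) (z ^ (N - n i)) • x i) = _
    rw [Loc.mf_smul, MonoidAlgebra.mapRingHom_single, hx, smul_smul,
      MonoidAlgebra.single_mul_single, mul_one, map_pow, ← pow_add, Nat.sub_add_cancel (hle i)]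
  have hs : ∀ i j g, (c i j).coeff g ≠ 0 → P.le (A.loc i) (g • A'.loc j) := by
    intro i j g hg
    have h1 : ((y i) j).coeff g ≠ 0 := by
      intro h0
      apply hg
      apply hφ
      rw [map_zero, ← Loc.coeff_mf, hmf, Finsupp.smul_apply, smul_eq_mul,
        MonoidAlgebra.coeff_single_mul_apply, inv_one, one_mul, h0, mul_zero]
    rw [hy] at h1
    exact Loc.spt_lin (A := Loc.bo A) (A' := Loc.bo A') f i j g h1
  refine ⟨N, Loc.ofB c hs, ?_⟩
  rw [tc_pow]
  refine Loc.ext_basis (A := Loc.bo A) (A' := Loc.bo A') fun i => ?_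
  have e1 : (Finsupp.single i (1 : MonoidAlgebra k' Γ) : A.ι →₀ MonoidAlgebra k' Γ) =
      Loc.mf φ A.ι (Finsupp.single i 1) := by
    rw [Loc.mf_single, map_one]
  have h1 : Loc.lin (A := Loc.bo A) (A' := Loc.bo A') ((Loc.bc φ).map (Loc.ofB c hs))
      (Finsupp.single i 1) = Loc.mf φ A'.ι (c i) := by
    rw [e1]
    exact (Loc.lin_bc φ (Loc.ofB c hs) _).trans (by rw [Loc.lin_ofB])
  have h2 : Loc.lin (A := Loc.bo A) (A' := Loc.bo A)
      ((Loc.bc φ).map ((Loc.cen (z ^ N) (pow_cen z hz N)).app A)) (Finsupp.single i 1) =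
      MonoidAlgebra.single (1 : Γ) (φ z ^ N) • Finsupp.single i 1 := by
    rw [e1]
    refine (Loc.lin_bc φ ((Loc.cen (z ^ N) (pow_cen z hz N)).app A) _).trans ?_
    erw [Loc.lin_cen]
    rw [Loc.mf_smul, MonoidAlgebra.mapRingHom_single, map_pow]
    rfl
  refine h1.trans ((hmf i).trans ?_)
  rw [hy]
  change _ = Loc.lin (A := Loc.bo A) (A' := Loc.bo A') f (Loc.lin (A := Loc.bo A) (A' := Loc.bo A)
      ((Loc.bc φ).map ((Loc.cen (z ^ N) (pow_cen z hz N)).app A)) (Finsupp.single i 1))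
  rw [h2, map_smul]

theorem lin_cen' (z : k) (hz : ∀ x, z * x = x * z) (A : Loc k P) (x : A.F) :
    Loc.lin (A := A) (A' := A) ((Loc.cen z hz).app A) x = MonoidAlgebra.single (1 : Γ) z • x := rfl

theorem bc_cen (z : k) (hz : ∀ x, z * x = x * z) (z' : k') (hz' : ∀ x, z' * x = x * z')
    (h : φ z = z') (A : Loc k P) :
    (Loc.bc φ).map ((Loc.cen z hz).app A) = (Loc.cen z' hz').app ((Loc.bc φ).obj A) := by
  refine Loc.ext_basis (A := Loc.bo A) (A' := Loc.bo A) fun i => ?_
  have e1 : (Finsupp.single i (1 : MonoidAlgebra k' Γ) : A.ι →₀ MonoidAlgebra k' Γ) =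
      Loc.mf φ A.ι (Finsupp.single i 1) := by
    rw [Loc.mf_single, map_one]
  have h2 : Loc.lin (A := Loc.bo A) (A' := Loc.bo A)
      ((Loc.bc φ).map ((Loc.cen z hz).app A)) (Finsupp.single i 1) =
      MonoidAlgebra.single (1 : Γ) (φ z) • Finsupp.single i 1 := by
    rw [e1]
    refine (Loc.lin_bc φ ((Loc.cen z hz).app A) _).trans ?_
    exact (congrArg (Loc.mf φ A.ι) (lin_cen' z hz A _)).trans (by
      rw [Loc.mf_smul, MonoidAlgebra.mapRingHom_single])
  rw [h2, h]
  exact (lin_cen' z' hz' (Loc.bo A) _).symm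

end gen

/-! ### The homotopy categories of complexes over `k[t]` and `k[t, t⁻¹]` -/

section kk

variable {k : Type u} [Ring k] {Γ : Type u} [Group Γ] {B : Type u} [MulAction Γ B] {P : Pre Γ B}

instance : (Loc.bc (P := P) (Polynomial.toLaurent (R := k))).Faithful :=
  faithful_bc _ Polynomial.toLaurent_injective

theorem xn_cen (n : ℕ) (x : Polynomial k) : Polynomial.X ^ n * x = x * Polynomial.X ^ n :=
  pow_cen _ xcen n x

/-- Multiplication by `t ^ n` on complexes over `k[t]`. -/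
noncomputable abbrev tx (n : ℕ) : 𝟭 (KK (Polynomial k) P) ⟶ 𝟭 (KK (Polynomial k) P) :=
  zz (Polynomial.X ^ n) (xn_cen n)

/-- The element of the centre of the category of located modules. -/
noncomputable abbrev tl : CatCenter (Loc (Polynomial k) P) := tc Polynomial.X xcen

theorem bsm {E : CochainComplex (Loc (Polynomial k) P) ℤ} (hE : FinC E) :
    BSm (Loc.bc (P := P) (Polynomial.toLaurent (R := k))) tl E where
  small i := small_bc _ Polynomial.toLaurent_injective _ _ (by
    intro x'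
    obtain ⟨n, x, hx⟩ := LaurentPolynomial.exists_T_pow x'
    refine ⟨n, x, ?_⟩
    rw [hx, Polynomial.toLaurent_X, LaurentPolynomial.T_pow, mul_one, tcen]) _ (hE.fin i)
  bdd := by
    obtain ⟨a, b, h⟩ := hE.bdd
    refine ⟨Finset.Icc a b, fun i hi => ?_⟩
    have h1 : IsEmpty (E.X i).ι := h i (by
      rw [Finset.mem_Icc] at hi
      lia)
    exact Loc.isZero_of_isEmpty _

theorem rsm {X : KK (Polynomial k) P} (hX : Per X) :
    RSm (Loc.bc (P := P) (Polynomial.toLaurent (R := k))) tl X := by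
  obtain ⟨E, hE, ⟨r⟩⟩ := hX
  exact ⟨E, r.i, r.r, r.retract, bsm hE⟩

theorem kt_tx (n : ℕ) (X : KK (Polynomial k) P) : (kt (tl ^ n)).app X = (tx n).app X := by
  change (HomotopyCategory.quotient _ _).map (tm (tl ^ n) X.as) =
    (HomotopyCategory.quotient _ _).map (cenC (Polynomial.X ^ n) (xn_cen n) X.as)
  congr 1
  exact HomologicalComplex.hom_ext _ _ fun i => tc_pow _ _ n _

theorem loc_tx (n : ℕ) (X : KK (Polynomial k) P) :
    (loc k P).map ((tx n).app X) = (tn (n : ℤ)).app ((loc k P).obj X) := by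
  change (HomotopyCategory.quotient _ _).map (((Loc.bc (P := P)
      (Polynomial.toLaurent (R := k))).mapHomologicalComplex _).map
        (cenC (Polynomial.X ^ n) (xn_cen n) X.as)) =
    (HomotopyCategory.quotient _ _).map (cenC (LaurentPolynomial.T n) (tcen n) _)
  congr 1
  exact HomologicalComplex.hom_ext _ _ fun i =>
    bc_cen _ _ _ _ _ (Polynomial.toLaurent_X_pow n) _

/-- Clearing denominators. -/
theorem den_map {X Y : KK (Polynomial k) P} (hX : Per X)
    (f : (loc k P).obj X ⟶ (loc k P).obj Y) :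
    ∃ (n : ℕ) (g : X ⟶ Y), (loc k P).map g = (tn (n : ℤ)).app ((loc k P).obj X) ≫ f := by
  obtain ⟨n, g, hg⟩ := exists_K (rsm hX) f
  rw [kt_tx, loc_tx] at hg
  exact ⟨n, g, hg⟩

/-- Morphisms which vanish after localization. -/
theorem den_zero {X Y : KK (Polynomial k) P} (hX : Per X) (g : X ⟶ Y)
    (hg : (loc k P).map g = 0) : ∃ n : ℕ, (tx n).app X ≫ g = 0 := by
  obtain ⟨n, hn⟩ := zero_K (rsm hX) g hg
  rw [kt_tx] at hn
  exact ⟨n, hn⟩

/-- Torsion objects. -/
theorem den_tors {X : KK (Polynomial k) P} (hX : Per X) (h0 : IsZero ((loc k P).obj X)) :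
    ∃ n : ℕ, (tx n).app X = 0 := by
  obtain ⟨n, hn⟩ := pow_zero_K (rsm hX) h0
  rw [kt_tx] at hn
  exact ⟨n, hn⟩

end kk

theorem tn_nat {k : Type u} [Ring k] {Γ : Type u} [Group Γ] {B : Type u} [MulAction Γ B]
    {P : Pre Γ B} (n : ℤ) {X Y : KK (LaurentPolynomial k) P} (g : X ⟶ Y) :
    g ≫ (tn n).app Y = (tn n).app X ≫ g := (tn (P := P) n).naturality g

theorem ttp_nat {k : Type u} [Ring k] {Γ : Type u} [Group Γ] {B : Type u} [MulAction Γ B]
    {P : Pre Γ B} (n : ℕ) {X Y : KK (Polynomial k) P} (g : X ⟶ Y) :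
    g ≫ (ttp n).app Y = (ttp n).app X ≫ g := (ttp (P := P) n).naturality g

theorem cd (k : Type u) [Ring k] {Γ : Type u} [Group Γ] {B : Type u} [MulAction Γ B]
    (P : Pre Γ B) : CD k P := by
  intro X Y hX
  refine ⟨fun g => ?_, fun f hf => ?_⟩
  · obtain ⟨n, f, hf⟩ := den_map hX g
    refine ⟨n, f, hf.trans ?_⟩
    exact (tn_nat (n : ℤ) g).symm
  · obtain ⟨n, hn⟩ := den_zero hX f hf
    refine ⟨n, ?_⟩
    rw [ttp_nat]
    exact hn

end Pool.Agent.NegK.NT.H74
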